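import Pool.Agent.R271.Basic

/-!
# Weak octahedrality is equivalent to its finite-point version
-/

open Filter Topology Metric Set

namespace Pool.Agent.Results.MP_140fc6_an.WOHFinitePoints

/-- `X` is weakly octahedral. -/
def WeaklyOctahedral (X : Type*) [NormedAddCommGroup X] [NormedSpace ℝ X] : Prop :=
  ∀ (E : Submodule ℝ X), FiniteDimensional ℝ E → ∀ f : StrongDual ℝ X, ‖f‖ ≤ 1 →
    ∀ ε : ℝ, 0 < ε → ∃ y : X, ‖y‖ = 1 ∧ ∀ x ∈ E, (1 - ε) * (|f x| + ‖y‖) ≤ ‖x + y‖

/-- Property (P). -/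
def PropertyP (X : Type*) [NormedAddCommGroup X] [NormedSpace ℝ X] : Prop :=
  ∀ ε : ℝ, 0 < ε → ∀ (n : ℕ) (x : Fin n → X), (∀ i, ‖x i‖ = 1) →
    ∀ f : StrongDual ℝ X, ‖f‖ ≤ 1 →
      ∃ y : X, ‖y‖ = 1 ∧ ∀ i, (1 - ε) * (|f (x i)| + 1) ≤ ‖x i + y‖

section
variable {X : Type*} [NormedAddCommGroup X] [NormedSpace ℝ X]

lemma propertyP_finset (hP : PropertyP X) (ε : ℝ) (hε : 0 < ε) (T : Finset X)
    (hT : ∀ x ∈ T, ‖x‖ = 1) (f : StrongDual ℝ X) (hf : ‖f‖ ≤ 1) :
    ∃ y : X, ‖y‖ = 1 ∧ ∀ x ∈ T, (1 - ε) * (|f x| + 1) ≤ ‖x + y‖ := by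
  obtain ⟨y, hy, h⟩ := hP ε hε T.card (fun i => (T.equivFin.symm i : X))
    (fun i => hT _ (T.equivFin.symm i).2) f hf
  refine ⟨y, hy, fun x hx => ?_⟩
  have := h (T.equivFin ⟨x, hx⟩)
  simpa using this

lemma infinite_dim (hP : PropertyP X) : ¬ FiniteDimensional ℝ X := by
  intro hfd
  obtain ⟨T, hT, hnet⟩ := R271.exists_finite_net (⊤ : Submodule ℝ X) (η := 1 / 4) (by norm_num)
  obtain ⟨y, hy, h⟩ := propertyP_finset hP (1 / 2) (by norm_num) T (fun x hx => (hT x hx).2) 0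
    (by simp)
  obtain ⟨z, hz, hyz⟩ := hnet (-y) trivial (by rw [norm_neg, hy])
  have h1 := h z hz
  have h2 : ‖z + y‖ = ‖-y - z‖ := by rw [← norm_neg (z + y)]; congr 1; abel
  rw [h2] at h1
  simp only [zero_apply, abs_zero] at h1
  norm_num at h1
  linarith

/-- A functional in the dual ball can be changed outside a proper finite-dimensional subspace so as
to have norm one. -/
lemma exists_norm_one_ext (hinf : ¬ FiniteDimensional ℝ X) (E : Submodule ℝ X)
    [FiniteDimensional ℝ E] (f : StrongDual ℝ X) (hf : ‖f‖ ≤ 1) :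
    ∃ f' : StrongDual ℝ X, ‖f'‖ = 1 ∧ ∀ e ∈ E, f' e = f e := by
  have hE : E ≠ ⊤ := by
    rintro rfl
    exact hinf (Module.Finite.of_surjective (Submodule.subtype (⊤ : Submodule ℝ X))
      (fun x => ⟨⟨x, trivial⟩, rfl⟩))
  obtain ⟨x, hx⟩ : ∃ x, x ∉ E := by
    by_contra hcon
    push Not at hcon
    exact hE (by ext z; simp [hcon z])
  obtain ⟨g, hg, hgx⟩ := R271.exists_annihilator_of_notMem E E.closed_of_finiteDimensional hx
  have hg0 : 0 < ‖g‖ := by
    rw [norm_pos_iff]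
    rintro rfl
    simp at hgx
  have hcont : Continuous fun s : ℝ => ‖f + s • g‖ := by fun_prop
  have h0 : ‖f + (0 : ℝ) • g‖ ≤ 1 := by simpa using hf
  have h2 : 1 ≤ ‖f + (2 / ‖g‖ : ℝ) • g‖ := by
    have e1 : ‖(2 / ‖g‖ : ℝ) • g‖ = 2 := by
      rw [norm_smul, Real.norm_of_nonneg (by positivity), div_mul_cancel₀ _ hg0.ne']
    have e2 := norm_sub_norm_le ((2 / ‖g‖ : ℝ) • g) (-f)
    rw [sub_neg_eq_add, norm_neg, e1, add_comm] at e2
    linarith
  obtain ⟨s, -, hs⟩ := intermediate_value_Icc (a := 0) (b := 2 / ‖g‖) (by positivity)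
    hcont.continuousOn ⟨h0, h2⟩
  refine ⟨f + s • g, hs, fun e he => ?_⟩
  simp [hg e he]

lemma woh_of_P (hP : PropertyP X) : WeaklyOctahedral X := by
  intro E hfd f hf ε hε
  have hinf := infinite_dim hP
  obtain ⟨f', hf', hf'E⟩ := exists_norm_one_ext hinf E f hf
  set ε₀ := min ε (1 / 2) with hε₀
  have hε₀0 : 0 < ε₀ := lt_min hε (by norm_num)
  have hε₀1 : ε₀ ≤ 1 / 2 := min_le_right _ _
  set η := ε₀ ^ 2 / 8 with hη
  have hη0 : 0 < η := by positivity
  have hηε : 6 * η ≤ ε₀ := by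
    rw [hη]
    nlinarith
  have hη1 : η ≤ 1 := by nlinarith
  obtain ⟨u, hu, hfu⟩ := R271.exists_unit_almost_norming f' hf' hη0
  let F : Submodule ℝ X := E ⊔ Submodule.span ℝ {u}
  haveI : FiniteDimensional ℝ F := Submodule.finiteDimensional_sup _ _
  have hEF : E ≤ F := le_sup_left
  have huF : u ∈ F := (le_sup_right : Submodule.span ℝ {u} ≤ F) (Submodule.mem_span_singleton_self u)
  obtain ⟨T, hT, hnet⟩ := R271.exists_finite_net F hη0
  obtain ⟨y, hy, hyT⟩ := propertyP_finset hP η hη0 T (fun x hx => (hT x hx).2) f' hf'.le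
  have habs : ∀ x, |f' x| ≤ ‖x‖ := R271.abs_dual_le_norm f' hf'.le
  -- unit vectors of `F`
  have hF1 : ∀ v ∈ F, ‖v‖ = 1 → |f' v| + 1 - 4 * η ≤ ‖v + y‖ := by
    intro v hv hv1
    obtain ⟨z, hz, hvz⟩ := hnet v hv hv1
    have h1 := hyT z hz
    have h2 : ‖z + y‖ ≤ ‖v + y‖ + η := by
      have e : z + y = (v + y) - (v - z) := by abel
      rw [e]
      exact (norm_sub_le _ _).trans (by linarith)
    have h3 : |f' v| - η ≤ |f' z| := by
      have e : f' v = f' z + f' (v - z) := by rw [← map_add]; congr 1; abel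
      have h4 := abs_add_le (f' z) (f' (v - z))
      rw [← e] at h4
      have h5 := habs (v - z)
      linarith
    have h6 : |f' z| ≤ 1 := by rw [← (hT z hz).2]; exact habs z
    nlinarith [abs_nonneg (f' z)]
  -- vectors of `E` in the unit ball
  have hE1 : ∀ e ∈ E, ‖e‖ ≤ 1 → |f' e| + 1 - 6 * η ≤ ‖e + y‖ := by
    intro e he he1
    obtain ⟨τ, hτ, hτe⟩ : ∃ τ : ℝ, |τ| = 1 ∧ τ * f' e = |f' e| := by
      rcases le_total 0 (f' e) with h | h
      · exact ⟨1, by simp, by rw [one_mul, abs_of_nonneg h]⟩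
      · exact ⟨-1, by simp, by rw [abs_of_nonpos h]; ring⟩
    have hcont : Continuous fun s : ℝ => ‖e + (s * τ) • u‖ := by fun_prop
    have h0 : ‖e + ((0 : ℝ) * τ) • u‖ ≤ 1 := by simpa using he1
    have h2 : 1 ≤ ‖e + ((2 : ℝ) * τ) • u‖ := by
      have e1 : ‖((2 : ℝ) * τ) • u‖ = 2 := by
        rw [norm_smul, hu, mul_one, norm_mul, Real.norm_eq_abs τ, hτ]; norm_num
      have e2 := norm_sub_norm_le (((2 : ℝ) * τ) • u) (-e)
      rw [sub_neg_eq_add, norm_neg, e1, add_comm] at e2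
      linarith
    obtain ⟨s, ⟨hs0, hs2⟩, hs⟩ := intermediate_value_Icc (a := 0) (b := 2) (by norm_num)
      hcont.continuousOn ⟨h0, h2⟩
    simp only at hs
    have h3 := hF1 (e + (s * τ) • u) (F.add_mem (hEF he) (F.smul_mem _ huF)) hs
    have h4 : |f' e| + s * (1 - η) ≤ |f' (e + (s * τ) • u)| := by
      have e3 : τ * f' (e + (s * τ) • u) = |f' e| + s * f' u := by
        rw [map_add, map_smul, smul_eq_mul, mul_add, hτe]
        have : τ * τ = 1 := by
          rw [← abs_mul_abs_self, hτ]; norm_num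
        calc |f' e| + τ * (s * τ * f' u) = |f' e| + (τ * τ) * (s * f' u) := by ring
          _ = |f' e| + s * f' u := by rw [this, one_mul]
      calc |f' e| + s * (1 - η) ≤ |f' e| + s * f' u := by
            have := mul_le_mul_of_nonneg_left hfu.le hs0
            linarith
        _ = τ * f' (e + (s * τ) • u) := e3.symm
        _ ≤ |τ * f' (e + (s * τ) • u)| := le_abs_self _
        _ = |f' (e + (s * τ) • u)| := by rw [abs_mul, hτ, one_mul]
    have h5 : ‖e + (s * τ) • u + y‖ ≤ ‖e + y‖ + s := by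
      have e4 : e + (s * τ) • u + y = (e + y) + (s * τ) • u := by abel
      rw [e4]
      refine (norm_add_le _ _).trans ?_
      rw [norm_smul, hu, mul_one, norm_mul, Real.norm_eq_abs τ, hτ, mul_one,
        Real.norm_of_nonneg hs0]
    nlinarith
  -- all vectors of `E`
  have hfin : ∀ e ∈ E, (1 - ε₀) * (|f' e| + 1) ≤ ‖e + y‖ := by
    intro e he
    by_cases he1 : ‖e‖ ≤ 1
    · have h1 := hE1 e he he1
      nlinarith [abs_nonneg (f' e)]
    · push Not at he1
      set t := ‖e‖ with ht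
      have ht0 : 0 < t := by linarith
      have hlow : t - 1 ≤ ‖e + y‖ := by
        have := norm_sub_norm_le e (-y)
        rw [sub_neg_eq_add, norm_neg, hy] at this
        exact this
      have hfe : |f' e| ≤ t := habs e
      by_cases htε : t ≤ 2 / ε₀
      · have h1 := hF1 (t⁻¹ • e) (F.smul_mem _ (hEF he))
          (by rw [norm_smul, norm_inv, Real.norm_of_nonneg ht0.le, ← ht, inv_mul_cancel₀ ht0.ne'])
        have h2 : t * ‖t⁻¹ • e + y‖ ≤ ‖e + y‖ + (t - 1) := by
          have e1 : t * ‖t⁻¹ • e + y‖ = ‖(e + y) + (t - 1) • y‖ := by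
            rw [← Real.norm_of_nonneg ht0.le, ← norm_smul, Real.norm_of_nonneg ht0.le, smul_add,
              smul_smul, mul_inv_cancel₀ ht0.ne', one_smul, sub_smul, one_smul]
            congr 1; abel
          rw [e1]
          refine (norm_add_le _ _).trans ?_
          rw [norm_smul, hy, mul_one, Real.norm_of_nonneg (by linarith)]
        have h3 : t * |f' (t⁻¹ • e)| = |f' e| := by
          rw [map_smul, smul_eq_mul, abs_mul, abs_inv, abs_of_pos ht0, ← mul_assoc,
            mul_inv_cancel₀ ht0.ne', one_mul]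
        have h4 : 4 * η * t ≤ ε₀ := by
          calc 4 * η * t ≤ 4 * η * (2 / ε₀) := mul_le_mul_of_nonneg_left htε (by positivity)
            _ = ε₀ := by rw [hη]; field_simp; ring
        have h5 : t * (|f' (t⁻¹ • e)| + 1 - 4 * η) ≤ t * ‖t⁻¹ • e + y‖ :=
          mul_le_mul_of_nonneg_left h1 ht0.le
        have h6 : 0 ≤ ε₀ * |f' e| := mul_nonneg hε₀0.le (abs_nonneg _)
        nlinarith
      · push Not at htε
        rw [div_lt_iff₀ hε₀0] at htε
        have h1 : (1 - ε₀) * (|f' e| + 1) ≤ (1 - ε₀) * (t + 1) :=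
          mul_le_mul_of_nonneg_left (by linarith) (by linarith)
        nlinarith
  refine ⟨y, hy, fun x hx => ?_⟩
  rw [hy, ← hf'E x hx]
  refine le_trans ?_ (hfin x hx)
  apply mul_le_mul_of_nonneg_right _ (by positivity)
  have := min_le_left ε (1 / 2)
  linarith

lemma P_of_woh (hW : WeaklyOctahedral X) : PropertyP X := by
  intro ε hε n x hx f hf
  obtain ⟨y, hy, h⟩ := hW (Submodule.span ℝ (Set.range x))
    (FiniteDimensional.span_of_finite ℝ (Set.finite_range x)) f hf ε hε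
  refine ⟨y, hy, fun i => ?_⟩
  have := h (x i) (Submodule.subset_span ⟨i, rfl⟩)
  rwa [hy] at this

end

theorem result (X : Type*) [NormedAddCommGroup X] [NormedSpace ℝ X] [CompleteSpace X] :
    WeaklyOctahedral X ↔ PropertyP X :=
  ⟨P_of_woh, woh_of_P⟩

end Pool.Agent.Results.MP_140fc6_an.WOHFinitePoints
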